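import Pool.Agent.helper38.VA.Spec

/-!
# Project va (MP_a2a22c_al), row F1: a transvection and a commuting element in a Zariski dense group
-/

set_option autoImplicit false

namespace Pool.Agent.VA

open Matrix Module Pool.Agent.PR Pool.Agent.H48SL

theorem F1 (hLRK1 : LRK1_stmt) : F1_stmt := by
  intro n hn H hH t ht u hu htu hrank hpow
  have hmap : ((t : Matrix (Fin n) (Fin n) ℤ) - 1).map (Int.castRingHom ℚ) = stdM ℚ t - 1 := by
    unfold stdM
    rw [Matrix.map_sub _ (map_sub _), Matrix.map_one _ (map_zero _) (map_one _)]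
  obtain ⟨e, φ, heφ⟩ := hLRK1 n ℚ ((t : Matrix (Fin n) (Fin n) ℤ) - 1) (by rw [hmap]; exact hrank)
  have hze : (t : Matrix (Fin n) (Fin n) ℤ) = 1 + vecMulVec e φ := by
    rw [← heφ]
    abel
  have hz1 : t ≠ 1 := by
    intro h
    rw [h, stdM_one, sub_self, rank_zero] at hrank
    exact zero_ne_one hrank
  obtain ⟨he, hφ, h0, hzt⟩ := Pool.Agent.H48SL.tv_data hz1 hze
  have hcomm : (u : Matrix (Fin n) (Fin n) ℤ) * (1 + vecMulVec e φ) =
      (1 + vecMulVec e φ) * (u : Matrix (Fin n) (Fin n) ℤ) := by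
    rw [← hze, ← Matrix.SpecialLinearGroup.coe_mul, ← Matrix.SpecialLinearGroup.coe_mul, htu]
  have hcomm2 : (u : Matrix (Fin n) (Fin n) ℤ) * vecMulVec e φ =
      vecMulVec e φ * (u : Matrix (Fin n) (Fin n) ℤ) := by
    rw [mul_add, add_mul, mul_one, one_mul] at hcomm
    exact add_left_cancel hcomm
  have hsm : φ ⬝ᵥ ((u : Matrix (Fin n) (Fin n) ℤ) *ᵥ e) = 0 := by
    have h2 := congrArg (fun M => M *ᵥ e) hcomm2
    simp only [← mulVec_mulVec, vecMulVec_mulVec, h0] at h2
    have h3 : (φ ⬝ᵥ ((u : Matrix (Fin n) (Fin n) ℤ) *ᵥ e)) • e = 0 := by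
      have h4 : (0 : Fin n → ℤ) = MulOpposite.op
          (φ ⬝ᵥ ((u : Matrix (Fin n) (Fin n) ℤ) *ᵥ e)) • e := by
        rw [← h2]
        ext i
        simp
      ext i
      have h5 := congrFun h4 i
      simp only [Pi.zero_apply, Pi.smul_apply, MulOpposite.smul_eq_mul_unop,
        MulOpposite.unop_op] at h5
      simp only [Pi.smul_apply, smul_eq_mul, Pi.zero_apply]
      rw [mul_comm]
      exact h5.symm
    rcases smul_eq_zero.1 h3 with h5 | h5
    · exact h5
    · exact absurd h5 he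
  exact (Pool.Agent.H48SL.final_coef (ι := Fin n) (by rw [Fintype.card_fin]; exact hn)
    H e φ t u ht hu hz1 hze (by rw [hsm]; norm_num)
    (Or.inr fun k hk m h => hpow k (by omega) m h)).1 hH

end Pool.Agent.VA
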